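import Pool.Agent.W601.RP.Stm2

/-!
# Gliding hump (part of project RP)
-/

set_option autoImplicit false
open scoped Classical
open Filter Topology

namespace Pool.Agent.W40.RP

open Pool.Agent.W601.RP

noncomputable section

theorem gh : S_AV → S_LOC → S_GH := by
  intro hAV hLOC k u hu hsupp hsum hlt 𝓕 hF1 hF2 hF3
  obtain ⟨ε, hε, hεW⟩ := hAV _ hsum hlt
  -- the contribution of the coordinates below `u l`
  let R : ℕ → (ℕ → ℕ) → TT := fun l G =>
    ∑ t ∈ (k l).support.filter (fun t => ¬ u l ≤ t), (k l t) • x (fun i => 2 * G i + ε i) t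
  choose f hf hf8 using hF2
  let G : ℕ → ℕ → ℕ := fun l => Nat.rec (fun _ => 0) (fun l G => fun t => G t + f l (R l G) t) l
  have hG0 : ∀ t, G 0 t = 0 := fun t => rfl
  have hGs : ∀ l t, G (l + 1) t = G l t + f l (R l (G l)) t := fun l t => rfl
  let φ : ℕ → ℕ → ℕ := fun l => f l (R l (G l))
  have hφ : ∀ l, φ l ∈ 𝓕 l := fun l => hf l _
  have hGs' : ∀ l t, G (l + 1) t = G l t + φ l t := hGs
  have hφ0 : ∀ l t, t < u l → φ l t = 0 := by
    intro l t ht
    by_contra h
    have := ((hF1 l _ (hφ l) t).2 h).2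
    omega
  have hφ1 : ∀ l t, u (l + 1) ≤ t → φ l t = 0 := by
    intro l t ht
    by_contra h
    have h1 := ((hF1 l _ (hφ l) t).2 h).1
    have := hsupp l t h1
    omega
  have hGz : ∀ l t, u l ≤ t → G l t = 0 := by
    intro l
    induction l with
    | zero => intro t _; exact hG0 t
    | succ l ih =>
      intro t ht
      have h1 : u l < u (l + 1) := hu (Nat.lt_succ_self l)
      rw [hGs', ih t (by omega), hφ1 l t ht]
  have hGm : ∀ l d t, t < u l → G (l + d) t = G l t := by
    intro l d
    induction d with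
    | zero => intro t _; rfl
    | succ d ih =>
      intro t ht
      have h1 : u l ≤ u (l + d) := hu.monotone (Nat.le_add_right l d)
      rw [← Nat.add_assoc, hGs', ih t ht, hφ0 (l + d) t (by omega), Nat.add_zero]
  let g : ℕ → ℕ := fun t => G (t + 1) t
  have hgG : ∀ l t, t < u l → g t = G l t := by
    intro l t ht
    have h1 : t + 1 ≤ u (t + 1) := hu.id_le (t + 1)
    change G (t + 1) t = G l t
    rcases le_total (t + 1) l with h | h
    · obtain ⟨d, rfl⟩ := Nat.exists_eq_add_of_le h
      exact (hGm (t + 1) d t (by omega)).symm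
    · obtain ⟨d, hd⟩ := Nat.exists_eq_add_of_le h
      rw [hd]
      exact hGm l d t ht
  have hgφ : ∀ l t, u l ≤ t → t < u (l + 1) → g t = φ l t := by
    intro l t h1 h2
    rw [hgG (l + 1) t h2, hGs', hGz l t h1, Nat.zero_add]
  have hNpos : ∀ t, 0 < N t := fun t => by
    unfold N
    positivity
  have hGN : ∀ l t, G l t < N t := by
    intro l
    induction l with
    | zero => intro t; rw [hG0]; exact hNpos t
    | succ l ih =>
      intro t
      rw [hGs']
      rcases lt_or_ge t (u l) with h | h
      · rw [hφ0 l t h, Nat.add_zero]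
        exact ih t
      · rw [hGz l t h, Nat.zero_add]
        exact (hF1 l _ (hφ l) t).1
  have hgN : ∀ t, g t < N t := fun t => hGN (t + 1) t
  let q : ℕ → ℕ := fun i => 2 * g i + ε i
  have hq2 : ∀ i, q i / 2 = g i := by
    intro i
    have := hε i
    change (2 * g i + ε i) / 2 = g i
    omega
  have hqm : ∀ i, q i % 2 = ε i := by
    intro i
    have := hε i
    change (2 * g i + ε i) % 2 = ε i
    omega
  have hgam : ∀ t, gam q t = ((((g t : ℝ) / (N t : ℝ)) : ℝ) : TT) := by
    intro t
    unfold gam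
    rw [hq2]
  refine ⟨q, ⟨?_, ?_⟩, ?_⟩
  · intro i
    have h1 := hε i
    have h2 := hgN i
    change 2 * g i + ε i < 2 * N i
    omega
  · have h1 := hF3 g (fun t ht => by rw [hgG 0 t ht, hG0])
      (fun l => ⟨φ l, hφ l, fun t h1 h2 => hgφ l t h1 h2⟩)
    have h2 : gam q = fun t => ((((g t : ℝ) / (N t : ℝ)) : ℝ) : TT) := funext hgam
    rw [h2]
    exact h1
  · intro l
    have h8 := hf8 l (R l (G l))
    have h1 : pr (k l) (x q) = R l (G l) +
        ∑ t ∈ (k l).support.filter (fun t => u l ≤ t),
          (k l t) • ((((f l (R l (G l)) t : ℝ) / (N t : ℝ)) : ℝ) : TT) := by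
      unfold pr
      rw [Finsupp.sum, ← Finset.sum_filter_add_sum_filter_not (k l).support (fun t => u l ≤ t),
        add_comm]
      congr 1
      · refine Finset.sum_congr rfl fun t ht => ?_
        rw [Finset.mem_filter] at ht
        congr 1
        refine hLOC _ _ t fun i hi => ?_
        change 2 * g i + ε i = 2 * G l i + ε i
        rw [hgG l i (by omega)]
      · refine Finset.sum_congr rfl fun t ht => ?_
        rw [Finset.mem_filter] at ht
        congr 1
        rw [hεW t (Set.mem_iUnion.2 ⟨l, ht⟩) q hqm, hgam t, hgφ l t ht.2 (hsupp l t ht.1)]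
    rw [h1]
    exact h8

end

end Pool.Agent.W40.RP
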